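import Mathlib
import Pool.Agent.Q220.Sadp.UBK
import Pool.Agent.Q220.Sadp.Gen

set_option autoImplicit false

/-!
# MP_45e0c4_an: no infinite-dimensional Banach space with an unconditional basis has the super ADP
-/

open Filter Topology

namespace Pool.Agent.Results.MP_45e0c4_an.NoUnconditionalBasis

/-- `W` is a relatively weakly open subset of the closed unit ball of `X`. -/
def RelWeaklyOpen (𝕜 : Type*) {X : Type*} [RCLike 𝕜] [NormedAddCommGroup X] [NormedSpace 𝕜 X]
    (W : Set X) : Prop :=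
  ∃ U : Set (WeakSpace 𝕜 X), IsOpen U ∧ W = {y | ‖y‖ ≤ 1 ∧ toWeakSpace 𝕜 X y ∈ U}

/-- The super alternative Daugavet property: for every `x` in the unit sphere and every relatively
weakly open `W ⊆ B_X` that meets the unit sphere, the supremum of `‖x + θ • y‖` over `y ∈ W` and
over scalars `θ` of modulus one is `2`. -/
def SuperADP (𝕜 : Type*) (X : Type*) [RCLike 𝕜] [NormedAddCommGroup X] [NormedSpace 𝕜 X] : Prop :=
  ∀ x : X, ‖x‖ = 1 → ∀ W : Set X, RelWeaklyOpen 𝕜 W → (∃ y ∈ W, ‖y‖ = 1) →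
    IsLUB {r : ℝ | ∃ y ∈ W, ∃ θ : 𝕜, ‖θ‖ = 1 ∧ r = ‖x + θ • y‖} 2

/-- `e` is a Schauder basis of `X`: every vector has a unique norm-convergent expansion. -/
def IsSchauderBasis (𝕜 : Type*) {X : Type*} [RCLike 𝕜] [NormedAddCommGroup X] [NormedSpace 𝕜 X]
    (e : ℕ → X) : Prop :=
  ∀ x : X, ∃! a : ℕ → 𝕜, Tendsto (fun N => ∑ n ∈ Finset.range N, a n • e n) atTop (𝓝 x)

/-- `e` is unconditional: every convergent series `∑ a n • e n` converges unconditionally. -/
def IsUnconditional (𝕜 : Type*) {X : Type*} [RCLike 𝕜] [NormedAddCommGroup X] [NormedSpace 𝕜 X]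
    (e : ℕ → X) : Prop :=
  ∀ a : ℕ → 𝕜, (∃ x : X, Tendsto (fun N => ∑ n ∈ Finset.range N, a n • e n) atTop (𝓝 x)) →
    Summable (fun n => a n • e n)

section

variable {𝕜 : Type*} [RCLike 𝕜] {X : Type*} [NormedAddCommGroup X] [NormedSpace 𝕜 X]

lemma existsUnique_hasSum {e : ℕ → X} (hb : IsSchauderBasis 𝕜 e) (hu : IsUnconditional 𝕜 e)
    (x : X) : ∃! a : ℕ → 𝕜, HasSum (fun n => a n • e n) x := by
  obtain ⟨a, ha, hau⟩ := hb x
  obtain ⟨y, hy⟩ := hu a ⟨x, ha⟩
  have h1 : x = y := tendsto_nhds_unique ha hy.tendsto_sum_nat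
  subst h1
  exact ⟨a, hy, fun b hb' => hau b hb'.tendsto_sum_nat⟩

/-- absolute sums are controlled by the sums over finite sets -/
lemma sum_norm_le (w : ℕ → 𝕜) (M : ℝ) (hM : ∀ A : Finset ℕ, ‖∑ k ∈ A, w k‖ ≤ M) (A : Finset ℕ) :
    ∑ k ∈ A, ‖w k‖ ≤ 4 * M := by
  classical
  have hre : ∀ v : ℕ → ℝ, (∀ A : Finset ℕ, |∑ k ∈ A, v k| ≤ M) → ∑ k ∈ A, |v k| ≤ 2 * M := by
    intro v hv
    rw [← Finset.sum_filter_add_sum_filter_not A (fun k => 0 ≤ v k) (fun k => |v k|)]
    have h1 : ∑ k ∈ A.filter (fun k => 0 ≤ v k), |v k| = ∑ k ∈ A.filter (fun k => 0 ≤ v k), v k :=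
      Finset.sum_congr rfl fun k hk => abs_of_nonneg (Finset.mem_filter.1 hk).2
    have h2 : ∑ k ∈ A.filter (fun k => ¬ 0 ≤ v k), |v k| =
        -∑ k ∈ A.filter (fun k => ¬ 0 ≤ v k), v k := by
      rw [← Finset.sum_neg_distrib]
      exact Finset.sum_congr rfl fun k hk => abs_of_neg (not_le.1 (Finset.mem_filter.1 hk).2)
    rw [h1, h2]
    have h3 := (le_abs_self _).trans (hv (A.filter (fun k => 0 ≤ v k)))
    have h4 := (neg_le_abs _).trans (hv (A.filter (fun k => ¬ 0 ≤ v k)))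
    linarith
  have h1 := hre (fun k => RCLike.re (w k)) (fun A => by
    rw [← map_sum]; exact (RCLike.abs_re_le_norm _).trans (hM A))
  have h2 := hre (fun k => RCLike.im (w k)) (fun A => by
    rw [← map_sum]; exact (RCLike.abs_im_le_norm _).trans (hM A))
  have h3 : ∑ k ∈ A, ‖w k‖ ≤ ∑ k ∈ A, (|RCLike.re (w k)| + |RCLike.im (w k)|) :=
    Finset.sum_le_sum fun k _ => by
      have h4 := RCLike.norm_sq_eq_def (z := w k)
      have h5 := abs_nonneg (RCLike.re (w k))
      have h6 := abs_nonneg (RCLike.im (w k))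
      have h7 := abs_mul_abs_self (RCLike.re (w k))
      have h8 := abs_mul_abs_self (RCLike.im (w k))
      nlinarith [norm_nonneg (w k)]
  rw [Finset.sum_add_distrib] at h3
  linarith

end

section main

variable {𝕜 : Type*} [RCLike 𝕜] {X : Type*} [NormedAddCommGroup X] [NormedSpace 𝕜 X]

/-- the contradiction -/
theorem contra (e : ℕ → X) (es : ℕ → X →L[𝕜] 𝕜) (C : ℝ)
    (hs : ∀ x, HasSum (fun k => es k x • e k) x)
    (horth : ∀ k j, es k (e j) = if k = j then 1 else 0)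
    (hC : ∀ x (A : Finset ℕ), ‖∑ k ∈ A, es k x • e k‖ ≤ C * ‖x‖)
    (f : X →L[𝕜] 𝕜) (hf : ‖f‖ ≤ 1)
    (hgen : ∀ z : X, ‖z‖ ≤ 1 → ∀ (N : ℕ) (δ : ℝ), 0 < δ → ∃ y : X, ‖y‖ ≤ 1 ∧
      (∀ k < N, ‖es k y - es k z‖ < δ) ∧ 1 - 1/16 < ‖f y‖) : False := by
  classical
  have hC0 : ∀ x, 0 ≤ C * ‖x‖ := fun x => (norm_nonneg _).trans (hC x ∅)
  -- the terms
  let t : X → ℕ → 𝕜 := fun x k => es k x * f (e k)
  have ht : ∀ x, HasSum (t x) (f x) := by
    intro x
    have h := (hs x).mapL f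
    have h2 : (fun b => f (es b x • e b)) = t x := by
      funext k
      rw [map_smul, smul_eq_mul]
    rwa [h2] at h
  have htA : ∀ x (A : Finset ℕ), ‖∑ k ∈ A, t x k‖ ≤ C * ‖x‖ := by
    intro x A
    have h1 : ∑ k ∈ A, t x k = f (∑ k ∈ A, es k x • e k) := by
      rw [map_sum]
      exact Finset.sum_congr rfl fun k _ => by rw [map_smul, smul_eq_mul]
    rw [h1]
    refine (f.le_opNorm _).trans ?_
    calc ‖f‖ * ‖∑ k ∈ A, es k x • e k‖ ≤ 1 * (C * ‖x‖) :=
          mul_le_mul hf (hC x A) (norm_nonneg _) zero_le_one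
      _ = C * ‖x‖ := one_mul _
  have htN : ∀ x (A : Finset ℕ), ∑ k ∈ A, ‖t x k‖ ≤ 4 * (C * ‖x‖) := fun x A =>
    sum_norm_le (t x) _ (htA x) A
  have hsum : ∀ x, Summable (fun k => ‖t x k‖) := fun x =>
    summable_of_sum_le (fun k => norm_nonneg _) (htN x)
  let S : X → ℝ := fun x => ∑' k, ‖t x k‖
  have hS : ∀ x, HasSum (fun k => ‖t x k‖) (S x) := fun x => (hsum x).hasSum
  have hSle : ∀ x, S x ≤ 4 * (C * ‖x‖) := fun x => (hsum x).tsum_le_of_sum_le (htN x)
  have hS0 : ∀ x, 0 ≤ S x := fun x => tsum_nonneg fun k => norm_nonneg _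
  have hSsmul : ∀ (c : 𝕜) x, S (c • x) = ‖c‖ * S x := by
    intro c x
    have h1 : (fun k => ‖t (c • x) k‖) = fun k => ‖c‖ * ‖t x k‖ := by
      funext k
      simp only [t]
      rw [map_smul, smul_eq_mul, mul_assoc, norm_mul]
    have h2 := hS (c • x)
    rw [h1] at h2
    exact h2.unique ((hS x).mul_left _)
  -- the infimum
  let Pr : ℕ → ℝ → Prop := fun n D => ∀ y : X, ‖y‖ ≤ 1 → (∀ k < n, es k y = 0) → S y ≤ D
  let 𝒟 : Set ℝ := {D | ∃ n, Pr n D}
  have hbdd : BddBelow 𝒟 := by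
    refine ⟨0, ?_⟩
    rintro D ⟨n, hn⟩
    exact (hS0 0).trans (hn 0 (by simp) (fun k _ => map_zero _))
  have hne : 𝒟.Nonempty := by
    refine ⟨4 * |C|, 0, fun y hy _ => (hSle y).trans ?_⟩
    have : C * ‖y‖ ≤ |C| := by
      calc C * ‖y‖ ≤ |C| * ‖y‖ := mul_le_mul_of_nonneg_right (le_abs_self C) (norm_nonneg _)
        _ ≤ |C| * 1 := mul_le_mul_of_nonneg_left hy (abs_nonneg _)
        _ = |C| := mul_one _
    linarith
  set d : ℝ := sInf 𝒟 with hd
  obtain ⟨D0, ⟨n0, hn0⟩, hD0⟩ := exists_lt_of_csInf_lt hne (by linarith : sInf 𝒟 < d + 1/4)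
  have hD00 : 0 ≤ D0 := (hS0 0).trans (hn0 0 (by simp) (fun k _ => map_zero _))
  have hbig : ∀ n, ∃ y : X, ‖y‖ ≤ 1 ∧ (∀ k < n, es k y = 0) ∧ d - 1/16 < S y := by
    intro n
    by_contra hcon
    push Not at hcon
    have h1 : d - 1/16 ∈ 𝒟 := ⟨n, fun y hy hk => hcon y hy hk⟩
    have h2 := csInf_le hbdd h1
    linarith
  -- the vector z
  obtain ⟨z, hz1, hz2, hz3, hz4⟩ : ∃ z : X, ‖z‖ ≤ 1 ∧ (∀ k < n0, es k z = 0) ∧ f z = 0 ∧
      d - 3/16 ≤ S z := by
    obtain ⟨y, hy1, hy2, hy3⟩ := hbig n0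
    by_cases hα : f y = 0
    · exact ⟨y, hy1, hy2, hα, by linarith⟩
    have h1 := (hS y).tendsto_sum_nat
    have h2 : ∀ᶠ n in atTop, S y - 1/16 < ∑ k ∈ Finset.range n, ‖t y k‖ :=
      h1.eventually (lt_mem_nhds (by linarith))
    obtain ⟨n1, hn1, hn1'⟩ := (h2.and (eventually_ge_atTop n0)).exists
    obtain ⟨y', hy'1, hy'2, hy'3⟩ := hbig n1
    set r : ℝ := ‖f y‖ + ‖f y'‖ with hr
    have hr0 : 0 < r := by
      have := norm_pos_iff.2 hα
      have := norm_nonneg (f y')
      linarith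
    have hrk : ((r : ℝ) : 𝕜) ≠ 0 := by rw [RCLike.ofReal_ne_zero]; exact hr0.ne'
    set s : 𝕜 := f y' / (r : 𝕜) with hsdef
    set u : 𝕜 := -(f y) / (r : 𝕜) with hudef
    have hsn : ‖s‖ = ‖f y'‖ / r := by
      rw [hsdef, norm_div, RCLike.norm_ofReal, abs_of_pos hr0]
    have hun : ‖u‖ = ‖f y‖ / r := by
      rw [hudef, norm_div, norm_neg, RCLike.norm_ofReal, abs_of_pos hr0]
    have hsu : ‖s‖ + ‖u‖ = 1 := by
      rw [hsn, hun, ← add_div, add_comm, ← hr, div_self hr0.ne']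
    refine ⟨s • y + u • y', ?_, ?_, ?_, ?_⟩
    · refine (norm_add_le _ _).trans ?_
      rw [norm_smul, norm_smul]
      have h3 := mul_le_mul_of_nonneg_left hy1 (norm_nonneg s)
      have h4 := mul_le_mul_of_nonneg_left hy'1 (norm_nonneg u)
      linarith
    · intro k hk
      rw [map_add, map_smul, map_smul, hy2 k hk, hy'2 k (by omega)]
      simp
    · rw [map_add, map_smul, map_smul, smul_eq_mul, smul_eq_mul, hsdef, hudef]
      field_simp
      ring
    · have hfin : HasSum (fun k => if k ∈ Finset.range n1 then ‖t y k‖ else 0)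
          (∑ k ∈ Finset.range n1, ‖t y k‖) := by
        have h3 : HasSum (fun k => if k ∈ Finset.range n1 then ‖t y k‖ else 0)
            (∑ k ∈ Finset.range n1, (if k ∈ Finset.range n1 then ‖t y k‖ else 0)) :=
          hasSum_sum_of_ne_finset_zero (fun k hk => if_neg hk)
        have h4 : ∑ k ∈ Finset.range n1, (if k ∈ Finset.range n1 then ‖t y k‖ else 0) =
            ∑ k ∈ Finset.range n1, ‖t y k‖ := Finset.sum_congr rfl fun k hk => if_pos hk
        rwa [h4] at h3
      have h5 := (((hS y).mul_left ‖s‖).add ((hS y').mul_left ‖u‖)).sub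
        (((hS y).sub hfin).mul_left (2 * ‖s‖))
      have h6 := hasSum_le (f := fun k => ‖s‖ * ‖t y k‖ + ‖u‖ * ‖t y' k‖ - 2 * ‖s‖ *
        (‖t y k‖ - if k ∈ Finset.range n1 then ‖t y k‖ else 0)) (fun k => by
          show _ ≤ ‖t (s • y + u • y') k‖
          have h7 : t (s • y + u • y') k = s * t y k + u * t y' k := by
            simp only [t]
            rw [map_add, map_smul, map_smul, smul_eq_mul, smul_eq_mul]
            ring
          rw [h7]
          by_cases hk : k ∈ Finset.range n1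
          · rw [if_pos hk]
            have h8 : t y' k = 0 := by
              simp only [t]
              rw [hy'2 k (Finset.mem_range.1 hk), zero_mul]
            rw [h8]
            simp
          · rw [if_neg hk, sub_zero]
            have h8 : ‖u * t y' k‖ ≤ ‖s * t y k + u * t y' k‖ + ‖s * t y k‖ := by
              have h9 := norm_sub_le (s * t y k + u * t y' k) (s * t y k)
              have h10 : s * t y k + u * t y' k - s * t y k = u * t y' k := by ring
              rwa [h10] at h9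
            rw [norm_mul, norm_mul s] at h8
            linarith) h5 (hS (s • y + u • y'))
      have h11 : 0 ≤ ‖s‖ := norm_nonneg s
      have h12 : 0 ≤ ‖u‖ := norm_nonneg u
      have h13 : ‖s‖ * (d - 1/16) ≤ ‖s‖ * S y := mul_le_mul_of_nonneg_left hy3.le h11
      have h14 : ‖u‖ * (d - 1/16) ≤ ‖u‖ * S y' := mul_le_mul_of_nonneg_left hy'3.le h12
      have h15 : 2 * ‖s‖ * (S y - ∑ k ∈ Finset.range n1, ‖t y k‖) ≤ 2 * ‖s‖ * (1/16) :=
        mul_le_mul_of_nonneg_left (by linarith) (by linarith)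
      have h16 : (‖s‖ + ‖u‖) * (d - 1/16) = d - 1/16 := by rw [hsu, one_mul]
      have h17 : ‖s‖ ≤ 1 := by linarith
      linarith
  -- choose N
  have h1 : ∀ᶠ n in atTop, S z - 1/16 < ∑ k ∈ Finset.range n, ‖t z k‖ :=
    (hS z).tendsto_sum_nat.eventually (lt_mem_nhds (by linarith))
  have h2 : ∀ᶠ n in atTop, ‖∑ k ∈ Finset.range n, t z k‖ < 1/16 := by
    have h3 := (ht z).tendsto_sum_nat.norm
    rw [hz3, norm_zero] at h3
    exact h3.eventually (gt_mem_nhds (by norm_num))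
  obtain ⟨N, ⟨hN1, hN2⟩, hN3⟩ := ((h1.and h2).and (eventually_ge_atTop n0)).exists
  set B : ℝ := ∑ k ∈ Finset.range N, (‖f (e k)‖ + ‖e k‖) + 1 with hB
  have hB1 : ∑ k ∈ Finset.range N, ‖f (e k)‖ ≤ B := by
    have h4 := Finset.sum_nonneg (s := Finset.range N) (f := fun k => ‖e k‖)
      fun k _ => norm_nonneg _
    rw [hB, Finset.sum_add_distrib]
    linarith
  have hB2 : ∑ k ∈ Finset.range N, ‖e k‖ ≤ B := by
    have h4 := Finset.sum_nonneg (s := Finset.range N) (f := fun k => ‖f (e k)‖)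
      fun k _ => norm_nonneg _
    rw [hB, Finset.sum_add_distrib]
    linarith
  have hB0 : 0 < B := by
    have h4 := Finset.sum_nonneg (s := Finset.range N) (f := fun k => ‖f (e k)‖ + ‖e k‖)
      fun k _ => by positivity
    linarith
  set δ : ℝ := 1 / (16 * B * (D0 + 1)) with hδ
  have hδ0 : 0 < δ := by positivity
  have hδB : δ * B * (D0 + 1) = 1/16 := by rw [hδ]; field_simp
  have hδB' : δ * B ≤ 1/16 := by
    have h5 : 0 ≤ δ * B := by positivity
    nlinarith
  obtain ⟨y, hy1, hy2, hy3⟩ := hgen z hz1 N δ hδ0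
  have hdiff : ∀ k < N, ‖t y k - t z k‖ ≤ δ * ‖f (e k)‖ := by
    intro k hk
    have h4 : t y k - t z k = (es k y - es k z) * f (e k) := by simp only [t]; ring
    rw [h4, norm_mul]
    exact mul_le_mul_of_nonneg_right (hy2 k hk).le (norm_nonneg _)
  have hsumd : ∑ k ∈ Finset.range N, ‖t y k - t z k‖ ≤ 1/16 := by
    refine (Finset.sum_le_sum fun k hk => hdiff k (Finset.mem_range.1 hk)).trans ?_
    rw [← Finset.mul_sum]
    exact (mul_le_mul_of_nonneg_left hB1 hδ0.le).trans hδB'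
  have hA1 : ∑ k ∈ Finset.range N, ‖t z k‖ - 1/16 ≤ ∑ k ∈ Finset.range N, ‖t y k‖ := by
    have h4 : ∑ k ∈ Finset.range N, ‖t z k‖ ≤
        ∑ k ∈ Finset.range N, (‖t y k‖ + ‖t y k - t z k‖) :=
      Finset.sum_le_sum fun k _ => by
        have := norm_sub_le (t y k) (t y k - t z k)
        rwa [sub_sub_cancel] at this
    rw [Finset.sum_add_distrib] at h4
    linarith
  have hA2 : ‖∑ k ∈ Finset.range N, t y k‖ ≤ 2/16 := by
    have h4 : ∑ k ∈ Finset.range N, t y k =
        ∑ k ∈ Finset.range N, t z k + ∑ k ∈ Finset.range N, (t y k - t z k) := by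
      rw [← Finset.sum_add_distrib]
      exact Finset.sum_congr rfl fun k _ => by ring
    rw [h4]
    refine (norm_add_le _ _).trans ?_
    have h5 := norm_sum_le (Finset.range N) (fun k => t y k - t z k)
    linarith
  have hA3 : ‖f y - ∑ k ∈ Finset.range N, t y k‖ ≤ S y - ∑ k ∈ Finset.range N, ‖t y k‖ := by
    have h4 := (ht y).tendsto_sum_nat
    have h5 := (hS y).tendsto_sum_nat
    have h6 : Tendsto (fun n => ‖∑ k ∈ Finset.range n, t y k - ∑ k ∈ Finset.range N, t y k‖) atTop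
        (𝓝 ‖f y - ∑ k ∈ Finset.range N, t y k‖) := (h4.sub_const _).norm
    have h7 : Tendsto (fun n => ∑ k ∈ Finset.range n, ‖t y k‖ - ∑ k ∈ Finset.range N, ‖t y k‖) atTop
        (𝓝 (S y - ∑ k ∈ Finset.range N, ‖t y k‖)) := h5.sub_const _
    refine le_of_tendsto_of_tendsto h6 h7 ?_
    filter_upwards [eventually_ge_atTop N] with n hn
    have h8 : Finset.range N ⊆ Finset.range n := Finset.range_mono hn
    rw [← Finset.sum_sdiff h8, ← Finset.sum_sdiff (f := fun k => ‖t y k‖) h8, add_sub_cancel_right,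
      add_sub_cancel_right]
    exact norm_sum_le _ _
  have hA4 : 1 - 3/16 ≤ ‖f y - ∑ k ∈ Finset.range N, t y k‖ := by
    have h4 := norm_sub_norm_le (f y) (∑ k ∈ Finset.range N, t y k)
    linarith
  have hSy : d + 1/2 ≤ S y := by linarith
  -- removing the first coordinates
  let yp : X := ∑ k ∈ Finset.range n0, es k y • e k
  have hyp : ‖yp‖ ≤ δ * B := by
    refine (norm_sum_le _ _).trans ?_
    have h4 : ∑ k ∈ Finset.range n0, ‖es k y • e k‖ ≤ ∑ k ∈ Finset.range n0, δ * ‖e k‖ := by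
      refine Finset.sum_le_sum fun k hk => ?_
      rw [norm_smul]
      have hk' := Finset.mem_range.1 hk
      have h5 := hy2 k (by omega)
      rw [hz2 k hk', sub_zero] at h5
      exact mul_le_mul_of_nonneg_right h5.le (norm_nonneg _)
    refine h4.trans ?_
    rw [← Finset.mul_sum]
    refine mul_le_mul_of_nonneg_left ?_ hδ0.le
    exact (Finset.sum_le_sum_of_subset_of_nonneg (Finset.range_mono hN3)
      fun k _ _ => norm_nonneg _).trans hB2
  have hesyp : ∀ k, es k yp = if k < n0 then es k y else 0 := by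
    intro k
    simp only [yp]
    rw [map_sum]
    have h4 : ∀ j ∈ Finset.range n0, es k (es j y • e j) = if k = j then es j y else 0 := by
      intro j _
      rw [map_smul, horth, smul_eq_mul]
      split_ifs <;> simp
    rw [Finset.sum_congr rfl h4, Finset.sum_ite_eq]
    simp [Finset.mem_range]
  let w : X := y - yp
  have hwes : ∀ k, es k w = if k < n0 then 0 else es k y := by
    intro k
    simp only [w]
    rw [map_sub, hesyp]
    split_ifs <;> simp
  have hw1 : ‖w‖ ≤ 1 + δ * B := (norm_sub_le _ _).trans (add_le_add hy1 hyp)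
  have hSw : S w = S y - ∑ k ∈ Finset.range n0, ‖t y k‖ := by
    have hfin : HasSum (fun k => if k ∈ Finset.range n0 then ‖t y k‖ else 0)
        (∑ k ∈ Finset.range n0, ‖t y k‖) := by
      have h3 : HasSum (fun k => if k ∈ Finset.range n0 then ‖t y k‖ else 0)
          (∑ k ∈ Finset.range n0, (if k ∈ Finset.range n0 then ‖t y k‖ else 0)) :=
        hasSum_sum_of_ne_finset_zero (fun k hk => if_neg hk)
      have h4 : ∑ k ∈ Finset.range n0, (if k ∈ Finset.range n0 then ‖t y k‖ else 0) =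
          ∑ k ∈ Finset.range n0, ‖t y k‖ := Finset.sum_congr rfl fun k hk => if_pos hk
      rwa [h4] at h3
    have h5 := (hS y).sub hfin
    have h6 : (fun k => ‖t y k‖ - if k ∈ Finset.range n0 then ‖t y k‖ else 0) =
        fun k => ‖t w k‖ := by
      funext k
      simp only [t]
      rw [hwes]
      by_cases hk : k < n0
      · rw [if_pos (Finset.mem_range.2 hk), if_pos hk]
        simp
      · rw [if_neg (fun h => hk (Finset.mem_range.1 h)), if_neg hk, sub_zero]
    rw [h6] at h5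
    exact (hS w).unique h5
  have hsmall : ∑ k ∈ Finset.range n0, ‖t y k‖ ≤ 1/16 := by
    have h4 : ∑ k ∈ Finset.range n0, ‖t y k‖ ≤ ∑ k ∈ Finset.range n0, ‖t y k - t z k‖ := by
      refine Finset.sum_le_sum fun k hk => ?_
      have h5 : t z k = 0 := by
        simp only [t]
        rw [hz2 k (Finset.mem_range.1 hk), zero_mul]
      rw [h5, sub_zero]
    refine h4.trans (le_trans ?_ hsumd)
    exact Finset.sum_le_sum_of_subset_of_nonneg (Finset.range_mono hN3)
      fun k _ _ => norm_nonneg _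
  -- upper bound
  have hη0 : 0 ≤ δ * B := by positivity
  have hup : S w ≤ (1 + δ * B) * D0 := by
    have hpos : (0:ℝ) < 1 + δ * B := by linarith
    have h4 := hn0 ((((1 + δ * B)⁻¹ : ℝ) : 𝕜) • w) (by
      show ‖(((1 + δ * B)⁻¹ : ℝ) : 𝕜) • w‖ ≤ 1
      rw [norm_smul, RCLike.norm_ofReal, abs_of_pos (inv_pos.2 hpos), inv_mul_le_iff₀ hpos, mul_one]
      exact hw1) (by
      intro k hk
      show es k ((((1 + δ * B)⁻¹ : ℝ) : 𝕜) • w) = 0
      rw [map_smul, hwes, if_pos hk, smul_zero])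
    have h5 : S ((((1 + δ * B)⁻¹ : ℝ) : 𝕜) • w) ≤ D0 := h4
    rw [hSsmul, RCLike.norm_ofReal, abs_of_pos (inv_pos.2 hpos), inv_mul_le_iff₀ hpos] at h5
    exact h5
  have h6 : (1 + δ * B) * D0 ≤ D0 + 1/16 := by nlinarith
  linarith

/-- The unit ball of a space with a basis has a countable dense subset. -/
lemma exists_dense_seq (e : ℕ → X) (es : ℕ → X →L[𝕜] 𝕜)
    (hs : ∀ x, HasSum (fun k => es k x • e k) x) :
    ∃ u : ℕ → X, (∀ i, ‖u i‖ ≤ 1) ∧ ∀ z : X, ‖z‖ ≤ 1 → ∀ O : Set X, IsOpen O → z ∈ O →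
      ∃ i, u i ∈ O := by
  have hsep : TopologicalSpace.IsSeparable (Set.univ : Set X) := by
    have h1 : TopologicalSpace.IsSeparable (closure ((Submodule.span 𝕜 (Set.range e) : Submodule 𝕜 X) :
        Set X)) :=
      ((TopologicalSpace.IsSeparable.span (Set.countable_range e).isSeparable)).closure
    refine h1.mono ?_
    intro x _
    have h2 := (hs x).tendsto_sum_nat
    refine mem_closure_of_tendsto h2 (Eventually.of_forall fun n => ?_)
    refine Submodule.sum_mem _ fun k _ => Submodule.smul_mem _ _ (Submodule.subset_span ⟨k, rfl⟩)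
  have h2 : TopologicalSpace.SeparableSpace X := TopologicalSpace.isSeparable_univ_iff.1 hsep
  have h3 : SecondCountableTopology X := UniformSpace.secondCountable_of_separable X
  let B := {x : X // ‖x‖ ≤ 1}
  have hne : Nonempty B := ⟨⟨0, by simp⟩⟩
  obtain ⟨v, hv⟩ := TopologicalSpace.exists_dense_seq B
  refine ⟨fun i => (v i).1, fun i => (v i).2, ?_⟩
  intro z hz O hO hzO
  have h4 : IsOpen ((Subtype.val : B → X) ⁻¹' O) := hO.preimage continuous_subtype_val
  obtain ⟨w, hw1, i, hi⟩ := hv.inter_open_nonempty _ h4 ⟨⟨z, hz⟩, hzO⟩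
  exact ⟨i, by rw [← hi] at hw1; exact hw1⟩

end main

/-- **MP_45e0c4_an, Q1, full negative answer.**  Over `𝕜 = ℝ` or `ℂ`, no Banach space with an
unconditional (Schauder) basis `(e n)` has the super alternative Daugavet property.  (A space with a
Schauder basis indexed by `ℕ` is automatically infinite-dimensional.) -/
theorem result (𝕜 : Type*) [RCLike 𝕜] (X : Type*) [NormedAddCommGroup X] [NormedSpace 𝕜 X]
    [CompleteSpace X] (e : ℕ → X) (hb : IsSchauderBasis 𝕜 e) (hu : IsUnconditional 𝕜 e) :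
    ¬ SuperADP 𝕜 X := by
  classical
  intro hADP
  have he := existsUnique_hasSum hb hu
  obtain ⟨es, C, hs, hC⟩ := Pool.Agent.Q220.Sadp.exists_coord 𝕜 e he
  have horth : ∀ k j, es k (e j) = if k = j then 1 else 0 := by
    intro k j
    have h1 : HasSum (fun n => (fun n => if n = j then (1 : 𝕜) else 0) n • e n) (e j) := by
      have h2 : HasSum (fun n => (if n = j then (1 : 𝕜) else 0) • e n)
          (∑ n ∈ ({j} : Finset ℕ), (if n = j then (1 : 𝕜) else 0) • e n) :=
        hasSum_sum_of_ne_finset_zero (fun n hn => by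
          rw [if_neg (fun h => hn (Finset.mem_singleton.2 h)), zero_smul])
      simpa using h2
    exact congrFun ((he (e j)).unique (y₁ := fun k => es k (e j)) (hs (e j)) h1) k
  have hne : ∀ k, e k ≠ 0 := by
    intro k h0
    have h1 := horth k k
    rw [h0, map_zero, if_pos rfl] at h1
    exact zero_ne_one h1
  obtain ⟨u, hu1, hu2⟩ := exists_dense_seq e es hs
  let W : ℕ → Set X := fun n => {y | ‖y‖ ≤ 1 ∧ ∀ k < (Nat.unpair (Nat.unpair n).2).1,
    ‖es k y - es k (u (Nat.unpair n).1)‖ < 1 / (((Nat.unpair (Nat.unpair n).2).2 : ℝ) + 1)}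
  have hWopen : ∀ n, RelWeaklyOpen 𝕜 (W n) := by
    intro n
    let U : Set (WeakSpace 𝕜 X) := ⋂ k ∈ Finset.range (Nat.unpair (Nat.unpair n).2).1,
      {y | ‖es k ((toWeakSpace 𝕜 X).symm y) - es k (u (Nat.unpair n).1)‖ <
        1 / (((Nat.unpair (Nat.unpair n).2).2 : ℝ) + 1)}
    refine ⟨U, ?_, ?_⟩
    · apply isOpen_biInter_finset
      intro k _
      have hcont : Continuous fun y : WeakSpace 𝕜 X => es k ((toWeakSpace 𝕜 X).symm y) :=
        WeakBilin.eval_continuous (topDualPairing 𝕜 X).flip (es k)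
      exact isOpen_lt (hcont.sub continuous_const).norm continuous_const
    · ext y
      simp only [W, U, Set.mem_ofPred_eq, Set.mem_iInter, Finset.mem_range,
        LinearEquiv.symm_apply_apply]
  have hWsph : ∀ n, ∃ y ∈ W n, ‖y‖ = 1 := by
    intro n
    set v := u (Nat.unpair n).1 with hv
    set N := (Nat.unpair (Nat.unpair n).2).1 with hN
    let g : ℝ → ℝ := fun s => ‖v + ((s : ℝ) : 𝕜) • e N‖
    have hg : Continuous g := by
      have : Continuous fun s : ℝ => ((s : ℝ) : 𝕜) := RCLike.continuous_ofReal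
      fun_prop
    have hg0 : g 0 ≤ 1 := by simp only [g]; simpa using hu1 _
    have hpos : 0 < ‖e N‖ := norm_pos_iff.2 (hne N)
    have hg1 : 1 ≤ g (2 / ‖e N‖) := by
      have h1 : ‖((2 / ‖e N‖ : ℝ) : 𝕜) • e N‖ = 2 := by
        rw [norm_smul, RCLike.norm_ofReal, abs_of_pos (by positivity)]
        field_simp
      have h2 : ‖((2 / ‖e N‖ : ℝ) : 𝕜) • e N‖ ≤ g (2 / ‖e N‖) + ‖v‖ := by
        have := norm_sub_le (v + ((2 / ‖e N‖ : ℝ) : 𝕜) • e N) v
        rwa [add_sub_cancel_left] at this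
      have h3 : ‖v‖ ≤ 1 := hu1 _
      linarith
    obtain ⟨s, -, hs1⟩ := intermediate_value_Icc (by positivity : (0:ℝ) ≤ 2 / ‖e N‖)
      hg.continuousOn ⟨hg0, hg1⟩
    refine ⟨v + ((s : ℝ) : 𝕜) • e N, ⟨hs1.le, ?_⟩, hs1⟩
    intro k hk
    rw [map_add, map_smul, horth, if_neg (by omega), smul_zero, add_zero, sub_self, norm_zero]
    positivity
  obtain ⟨x₀, -, hx₀⟩ := hWsph 0
  obtain ⟨f, hf1, hf2⟩ := Pool.Agent.Q220.Sadp.exists_generic (𝕜 := 𝕜) W (fun k y hy => hy.1) x₀ hx₀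
    (by
      intro k x hx ε hε
      have h1 := hADP x hx (W k) (hWopen k) (hWsph k)
      obtain ⟨r, ⟨y, hy, θ, hθ, rfl⟩, hr⟩ := (lt_isLUB_iff h1).1 (by linarith : 2 - ε < 2)
      exact ⟨y, hy, θ, hθ, hr⟩)
  refine contra e es C hs horth hC f hf1 ?_
  intro z hz N δ hδ
  obtain ⟨m, hm⟩ := exists_nat_one_div_lt (half_pos hδ)
  let O : Set X := ⋂ k ∈ Finset.range N, {x | ‖es k x - es k z‖ < δ / 2}
  have hO : IsOpen O := by
    apply isOpen_biInter_finset
    intro k _
    exact isOpen_lt ((es k).continuous.sub continuous_const).norm continuous_const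
  obtain ⟨i, hi⟩ := hu2 z hz O hO (by
    simp only [O, Set.mem_iInter, Set.mem_ofPred_eq]
    intro k _
    rw [sub_self, norm_zero]
    linarith)
  obtain ⟨y, hy, hfy⟩ := hf2 (Nat.pair i (Nat.pair N m)) (1/16) (by norm_num)
  refine ⟨y, hy.1, ?_, hfy⟩
  intro k hk
  have h1 := hy.2 k (by simpa using hk)
  simp only [Nat.unpair_pair] at h1
  have h2 : ‖es k (u i) - es k z‖ < δ / 2 := by
    simp only [O, Set.mem_iInter, Set.mem_ofPred_eq] at hi
    exact hi k (Finset.mem_range.2 hk)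
  have h3 := norm_add_le (es k y - es k (u i)) (es k (u i) - es k z)
  rw [sub_add_sub_cancel] at h3
  linarith

end Pool.Agent.Results.MP_45e0c4_an.NoUnconditionalBasis
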